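import Mathlib

set_option autoImplicit false

namespace Pool.Agent.H.MP_757726_co

variable {A : Type}

def Anti (t : List A → List A) : Prop := (∀ v w, t (v ++ w) = t w ++ t v) ∧ ∀ w, t (t w) = w

def ref (f : A → A) (w : List A) : List A := (w.map f).reverse

lemma anti_ref {f : A → A} (hf : ∀ a, f (f a) = a) : Anti (ref f) := by
  refine ⟨fun v w => by simp [ref], fun w => ?_⟩
  simp only [ref, List.map_reverse, List.reverse_reverse, List.map_map]
  conv_rhs => rw [← List.map_id w]
  exact List.map_congr_left fun a _ => hf a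

lemma Anti.struct {t : List A → List A} (h : Anti t) :
    ∃ f : A → A, (∀ a, f (f a) = a) ∧ t = ref f := by
  have h0 : t [] = [] := by
    have := congrArg List.length (h.1 [] [])
    simp only [List.append_nil, List.length_append] at this
    exact List.length_eq_zero_iff.1 (by omega)
  have h1 : ∀ a, 1 ≤ (t [a]).length := by
    intro a
    by_contra hc
    have h2 : t [a] = [] := List.length_eq_zero_iff.1 (by omega)
    have h3 := h.2 [a]
    rw [h2, h0] at h3
    simp at h3
  have h2 : ∀ w, w.length ≤ (t w).length := by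
    intro w
    induction w with
    | nil => simp
    | cons a w ih =>
      have := h.1 [a] w
      simp only [List.singleton_append] at this
      rw [this]
      have := h1 a
      simp only [List.length_cons, List.length_append]
      omega
  have h3 : ∀ a, ∃ b, t [a] = [b] := by
    intro a
    have := h2 (t [a])
    rw [h.2] at this
    have h4 := h1 a
    exact List.length_eq_one_iff.1 (by simp only [List.length_singleton] at this; omega)
  choose f hf using h3
  refine ⟨f, fun a => ?_, ?_⟩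
  · have := h.2 [a]
    rw [hf, hf] at this
    simpa using this
  · funext w
    induction w with
    | nil => simp [ref, h0]
    | cons a w ih =>
      have := h.1 [a] w
      simp only [List.singleton_append] at this
      rw [this, ih, hf]
      simp [ref]

def pre (u : ℕ → A) (m : ℕ) : List A := (List.range m).map u

def Pal (u : ℕ → A) (f : A → A) (m : ℕ) : Prop := ∀ x y, x + y + 1 = m → u y = f (u x)

lemma pal_iff (u : ℕ → A) (f : A → A) (m : ℕ) : ref f (pre u m) = pre u m ↔ Pal u f m := by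
  constructor
  · intro h x y hxy
    have := congrArg (fun l => l[y]?) h
    simp only [ref, pre] at this
    rw [List.getElem?_reverse (by simp; omega)] at this
    simp only [List.length_map, List.length_range, List.getElem?_map] at this
    rw [List.getElem?_range (by omega), List.getElem?_range (by omega),
      show m - 1 - y = x by omega] at this
    simpa using this.symm
  · intro h
    apply List.ext_getElem (by simp [ref, pre])
    intro i h1 h2
    simp only [pre, List.length_map, List.length_range] at h2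
    simp only [ref, pre, List.getElem_reverse, List.getElem_map, List.getElem_range,
      List.length_map, List.length_range]
    exact (h _ _ (by omega)).symm

lemma pure_per (u : ℕ → A) (s q : ℕ) (h : ∀ x ≥ s, u (x + q) = u x)
    (hp : ∀ M, ∃ m ≥ M, ∃ f, Pal u f m) : Function.Periodic u q := by
  intro x
  obtain ⟨m, hm, f, hf⟩ := hp (x + q + s + 1)
  rw [hf (m - 1 - x - q) (x + q) (by omega), hf (m - 1 - x) x (by omega),
    ← h (m - 1 - x - q) (by omega)]
  congr 2
  omega

def R (u : ℕ → A) (q : ℕ) (f : A → A) (m : ℕ) : Prop :=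
  ∀ x y, x + y + 1 ≡ m [MOD q] → u y = f (u x)

lemma per_mod {u : ℕ → A} {q : ℕ} (h : Function.Periodic u q) {x y : ℕ} (e : x ≡ y [MOD q]) :
    u x = u y := by
  rw [← h.map_mod_nat x, ← h.map_mod_nat y, e]

lemma R_of_pal {u : ℕ → A} {q : ℕ} (hq : 0 < q) (h : Function.Periodic u q) {f : A → A} {m : ℕ}
    (hm : q ≤ m) (hp : Pal u f m) : R u q f m := by
  intro x y e
  have h1 := Nat.mod_lt x hq
  rw [← h.map_mod_nat x, ← hp (x % q) (m - 1 - x % q) (by omega)]
  apply per_mod h
  have e2 : x + (m - 1 - x % q) + 1 ≡ m [MOD q] := by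
    have : x % q + (m - 1 - x % q) + 1 = m := by omega
    conv_rhs => rw [← this]
    exact ((Nat.mod_modEq x q).symm.add_right _).add_right _
  exact Nat.ModEq.add_left_cancel' x (Nat.ModEq.add_right_cancel' 1 (e.trans e2.symm))

lemma ex_y {q : ℕ} (hq : 0 < q) (x m : ℕ) : ∃ y, x + y + 1 ≡ m [MOD q] := by
  refine ⟨m + (x + 1) * q - (x + 1), ?_⟩
  have : x + 1 ≤ (x + 1) * q := Nat.le_mul_of_pos_right _ hq
  rw [show x + (m + (x + 1) * q - (x + 1)) + 1 = m + (x + 1) * q by omega]
  simp [Nat.ModEq]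

lemma trans_of_R {u : ℕ → A} {q : ℕ} (hq : 0 < q) {f g : A → A} {m p : ℕ}
    (h1 : R u q f m) (h2 : R u q g (m + p)) (x : ℕ) : u (x + p) = g (f (u x)) := by
  obtain ⟨y, hy⟩ := ex_y hq x m
  rw [← h1 x y hy]
  apply h2
  rw [show y + (x + p) + 1 = x + y + 1 + p by omega]
  exact hy.add_right p

lemma R_add {u : ℕ → A} {q : ℕ} (hq : 0 < q) (h : Function.Periodic u q) {f π : A → A} {m p : ℕ}
    (h1 : R u q f m) (h2 : ∀ x, u (x + p) = π (u x)) : R u q (π ∘ f) (m + p) := by
  intro x y e
  obtain ⟨z, hz⟩ := ex_y hq x m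
  simp only [Function.comp]
  rw [← h1 x z hz, ← h2]
  apply per_mod h
  have := hz.add_right p
  rw [show x + z + 1 + p = x + (z + p) + 1 by omega] at this
  exact Nat.ModEq.add_left_cancel' x (Nat.ModEq.add_right_cancel' 1 (e.trans this.symm))

lemma R_inv {u : ℕ → A} {q : ℕ} (hq : 0 < q) (hs : Function.Surjective u) {f : A → A} {m : ℕ}
    (h1 : R u q f m) (a : A) : f (f a) = a := by
  obtain ⟨x, rfl⟩ := hs a
  exact (trans_of_R (p := 0) hq h1 h1 x).symm

lemma R_uniq {u : ℕ → A} {q : ℕ} (hq : 0 < q) (hs : Function.Surjective u) {f g : A → A} {m : ℕ}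
    (h1 : R u q f m) (h2 : R u q g m) : f = g := by
  funext a
  obtain ⟨x, rfl⟩ := hs a
  obtain ⟨y, hy⟩ := ex_y hq x m
  rw [← h1 x y hy, ← h2 x y hy]

theorem fwd (u : ℕ → A) (hs : Function.Surjective u) (f : ℕ → A → A) (hf : ∀ n a, f n (f n a) = a)
    (m : ℕ → ℕ) (hm : StrictMono m) (hp : ∀ n, Pal u (f n) (m (n + 1)))
    (hn : ∀ k g, (∀ a, g (g a) = a) → Pal u g k → ∃ n, m n = k)
    (s q : ℕ) (hq : 0 < q) (h : ∀ x ≥ s, u (x + q) = u x) :
    (∀ i ≥ q, f i (u (m (i + 1))) = u (q - 1)) ∧
      ∃ π : A → A, ∀ i ≥ q, ∀ a, f (i + 1) (f i a) = π a := by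
  classical
  have hper : Function.Periodic u q := pure_per u s q h fun M =>
    ⟨m (M + 1), (Nat.le_succ M).trans (hm.id_le _), f M, hp M⟩
  have hR : ∀ i ≥ q, R u q (f i) (m (i + 1)) := fun i hi =>
    R_of_pal hq hper (hi.trans ((Nat.le_succ i).trans (hm.id_le _))) (hp i)
  constructor
  · intro i hi
    symm
    apply hR i hi
    rw [show m (i + 1) + (q - 1) + 1 = m (i + 1) + q by omega]
    simp [Nat.ModEq]
  · have hex : ∃ p, 0 < p ∧ ∃ π : A → A, ∀ x, u (x + p) = π (u x) := ⟨q, hq, id, hper⟩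
    obtain ⟨hp0, π, hπ⟩ := Nat.find_spec hex
    refine ⟨π, fun i hi a => ?_⟩
    have h1 := R_add hq hper (hR i hi) hπ
    obtain ⟨n, hn'⟩ := hn (m (i + 1) + Nat.find hex) _ (R_inv hq hs h1)
      (fun x y e => h1 x y (by rw [e]))
    have h2 : i + 1 < n := hm.lt_iff_lt.1 (by omega)
    have h3 : m (i + 1 + 1) ≤ m n := hm.monotone h2
    have h4 : m (i + 1) < m (i + 1 + 1) := hm (by omega)
    have h5 := hR (i + 1) (by omega)
    obtain ⟨p, hp'⟩ : ∃ p, m (i + 1 + 1) = m (i + 1) + p := ⟨_, (Nat.add_sub_cancel' h4.le).symm⟩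
    rw [hp'] at h5
    have h6 : Nat.find hex ≤ p := Nat.find_min' hex
      ⟨by omega, fun a => f (i + 1) (f i a), trans_of_R hq (hR i hi) h5⟩
    have h7 : p = Nat.find hex := by omega
    rw [h7] at h5
    rw [R_uniq hq hs h5 h1]
    simp [hf]

theorem bwd [Finite A] (u : ℕ → A) (f : ℕ → A → A) (hf : ∀ n a, f n (f n a) = a)
    (m : ℕ → ℕ) (hm : StrictMono m) (hp : ∀ n, Pal u (f n) (m (n + 1))) (N : ℕ)
    (h1 : ∀ i ≥ N, ∀ a, f (i + 2) (f (i + 1) a) = f (i + 1) (f i a))
    (h2 : ∀ i ≥ N, m (i + 3) + m (i + 1) ≤ 2 * m (i + 2)) :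
    ∃ q > 0, ∀ x, u (x + q) = u x := by
  classical
  have hex : ∃ p, ∃ i ≥ N, m (i + 2) = m (i + 1) + p :=
    ⟨_, N, le_rfl, (Nat.add_sub_cancel' (hm (by omega : N + 1 < N + 2)).le).symm⟩
  obtain ⟨j, hj, hjp⟩ := Nat.find_spec hex
  set p := Nat.find hex with hpd
  have hp0 : 0 < p := by have := hm (by omega : j + 1 < j + 2); omega
  have key : ∀ k, m (j + k + 2) = m (j + k + 1) + p ∧
      ∀ a, f (j + k + 1) (f (j + k) a) = f (j + 1) (f j a) := by
    intro k
    induction k with
    | zero => exact ⟨hjp, fun a => rfl⟩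
    | succ k ih =>
      refine ⟨?_, fun a => (h1 (j + k) (by omega) a).trans (ih.2 a)⟩
      have h3 := h2 (j + k) (by omega)
      have h4 := hm (by omega : j + k + 2 < j + k + 3)
      have h5 : p ≤ m (j + k + 3) - m (j + k + 2) := Nat.find_min' hex
        ⟨j + k + 1, by omega, (Nat.add_sub_cancel' h4.le).symm⟩
      have h6 := ih.1
      change m (j + k + 3) = m (j + k + 2) + p
      omega
  let π : Equiv.Perm A := (Function.Involutive.toPerm (f (j + 1)) (hf _)) *
    Function.Involutive.toPerm (f j) (hf _)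
  have h3 : ∀ x, u (x + p) = π (u x) := by
    intro x
    have h4 : x + 1 ≤ m (j + x + 1) := (by omega : x + 1 ≤ j + x + 1).trans (hm.id_le _)
    have h5 := hp (j + x) x (m (j + x + 1) - 1 - x) (by omega)
    have h6 := hp (j + x + 1) (m (j + x + 1) - 1 - x) (x + p)
      (by have := (key x).1; change _ = m (j + x + 2); omega)
    rw [h6, h5, (key x).2]
    rfl
  have h4 : ∀ k x, u (x + k * p) = (π ^ k) (u x) := by
    intro k
    induction k with
    | zero => simp
    | succ k ih =>
      intro x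
      rw [show x + (k + 1) * p = x + k * p + p by ring, h3, ih, pow_succ']
      rfl
  refine ⟨orderOf π * p, Nat.mul_pos (orderOf_pos π) hp0, fun x => ?_⟩
  rw [h4, pow_orderOf_eq_one]
  rfl

end Pool.Agent.H.MP_757726_co
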